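import Pool.Agent.H73.GWQ.Stmts2

/-! Project GWQ, row N4Q: finiteness of the WPD sets for all large powers. -/

set_option autoImplicit false

open Classical

namespace GWQ

section N4Qsec

variable {G V : Type*} [Group G] (D : QM G V)

theorem N4Q_sub (hN3 : N3QStmt D) (g : G) (hg : Reg D g) (R n₀ n : ℕ) (hn : n₀ ≤ n) (x : G)
    (h1 : D.nm x ≤ R) (h2 : D.d (g ^ n) (x * g ^ n) ≤ R) :
    D.d (g ^ n₀) (x * g ^ n₀) ≤ R + BB D g + 4 * D.δ := by
  have h := hN3 g hg x 0 0 1 n n₀ R (Or.inl rfl) hn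
  simp only [zpow_zero, mul_one, zero_add, one_mul, zpow_natCast] at h
  exact h h1 h2

theorem N4Q (hN3 : N3QStmt D) : N4QStmt D := by
  intro g hg hW R
  obtain ⟨n₀, hfin⟩ := hW (2 * R + BB D g + 4 * D.δ)
  refine ⟨n₀, fun n hn => ⟨?_, ?_⟩⟩
  · refine hfin.subset ?_
    intro x hx
    obtain ⟨h1, h2⟩ := hx
    have h3 := N4Q_sub D hN3 g hg R n₀ n hn x h1 h2
    refine ⟨?_, ?_⟩
    · show D.nm x ≤ 2 * R + BB D g + 4 * D.δ
      omega
    · omega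
  · by_cases hT : ∃ x₀ : G, D.nm x₀ ≤ R ∧ D.d (g ^ (-(n : ℤ))) (x₀ * g ^ n) ≤ R
    · obtain ⟨x₀, a1, a2⟩ := hT
      refine (hfin.image (fun y => x₀ * y)).subset ?_
      intro x hx
      obtain ⟨b1, b2⟩ := hx
      refine ⟨x₀⁻¹ * x, ?_, by simp⟩
      have c1 : D.nm (x₀⁻¹ * x) ≤ 2 * R := by
        have e1 : D.d 1 (x₀⁻¹ * x) = D.d x₀ x := by
          have h := D.inv x₀⁻¹ x₀ x
          rwa [inv_mul_cancel] at h
        have e2 := D.tri x₀ 1 x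
        have e3 := D.comm x₀ 1
        have e4 : D.nm x₀ = D.d 1 x₀ := rfl
        have e5 : D.nm x = D.d 1 x := rfl
        show D.d 1 (x₀⁻¹ * x) ≤ 2 * R
        omega
      have c2 : D.d (g ^ n) (x₀⁻¹ * x * g ^ n) ≤ 2 * R := by
        have e1 : D.d (g ^ n) (x₀⁻¹ * x * g ^ n) = D.d (x₀ * g ^ n) (x * g ^ n) := by
          have h := D.inv x₀⁻¹ (x₀ * g ^ n) (x * g ^ n)
          rwa [inv_mul_cancel_left, ← mul_assoc] at h
        have e2 := D.tri (x₀ * g ^ n) (g ^ (-(n : ℤ))) (x * g ^ n)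
        have e3 := D.comm (x₀ * g ^ n) (g ^ (-(n : ℤ)))
        omega
      have c3 := N4Q_sub D hN3 g hg (2 * R) n₀ n hn (x₀⁻¹ * x) c1 c2
      refine ⟨?_, c3⟩
      show D.nm (x₀⁻¹ * x) ≤ 2 * R + BB D g + 4 * D.δ
      omega
    · have hE : {x : G | D.nm x ≤ R ∧ D.d (g ^ (-(n : ℤ))) (x * g ^ n) ≤ R} = ∅ := by
        ext x
        simp only [Set.mem_setOf_eq, Set.mem_empty_iff_false, iff_false]
        exact fun h => hT ⟨x, h⟩
      rw [hE]
      exact Set.finite_empty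

end N4Qsec

end GWQ
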