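import Pool.Agent.H73.GWQ.Stmts

/-! Project GWQ, row TUQ: for a fixed end point all letters but the highest are decoded. -/

set_option autoImplicit false

open Classical

namespace GWQ

section TUQsec

variable {ι G V : Type*} [Fintype ι] [Group G] (C : QCode ι G V)

theorem TUQ_offs (w : ℕ → G) (b : List ι) :
    ∀ (F : List (ι × List ι)) (i : ℕ), (offs C w F b).drop i = offs C w (F.drop i) b := by
  intro F
  induction F with
  | nil =>
    intro i
    rw [List.drop_nil, offs, List.drop_nil]
  | cons f F ih =>
    intro i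
    cases i with
    | zero => rw [List.drop_zero, List.drop_zero]
    | succ i => rw [offs, List.drop_succ_cons, List.drop_succ_cons, ih]

theorem TUQ_low (m : G) (s : ι) : C.nm m ≤ C.nm (m * C.c s) + C.Λ' := by
  have h1 : C.d 1 m ≤ C.d 1 (m * C.c s) + C.d (m * C.c s) m := C.tri _ _ _
  have h2 : C.d (m * C.c s) m = C.d 1 (C.c s) := by
    rw [C.comm (m * C.c s) m]
    have h3 := C.inv m 1 (C.c s)
    rwa [mul_one] at h3
  have h4 := C.hi s
  show C.d 1 m ≤ C.d 1 (m * C.c s) + C.Λ'
  omega

theorem TUQ_near (hH4 : H4QStmt C.toQM) (A z u : G) (R n : ℕ)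
    (h1 : C.nm A + C.d A z ≤ C.nm z + 5 * C.K) (h2 : C.nm A + n + C.Λ ≤ C.nm z)
    (h3 : R + 10 * C.K ≤ n) (h4 : C.d z u ≤ R) :
    C.nm A + C.d A u ≤ C.nm u + 6 * C.K := by
  have h5 : C.d 1 z + C.d A u ≤
      max (C.d 1 A + C.d z u) (C.d 1 u + C.d z A) + 4 * C.δ := hH4 1 z A u
  have h6 := C.hδ
  have h7 := C.K_pos
  have h8 := C.comm z A
  have h9 : C.nm A = C.d 1 A := rfl
  have h10 : C.nm z = C.d 1 z := rfl
  have h11 : C.nm u = C.d 1 u := rfl
  rcases le_total (C.d 1 A + C.d z u) (C.d 1 u + C.d z A) with h | h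
  · rw [max_eq_right h] at h5
    omega
  · rw [max_eq_left h] at h5
    omega

theorem TUQ_eq (hH4 : H4QStmt C.toQM) (hNEA : NEAStmt C.toQM) (m z z' u : G) (s t : ι)
    (R n : ℕ)
    (h1 : C.nm (m * C.c s) + C.d (m * C.c s) z ≤ C.nm z + 5 * C.K)
    (h2 : C.nm (m * C.c s) + n + C.Λ ≤ C.nm z)
    (h1' : C.nm (m * C.c t) + C.d (m * C.c t) z' ≤ C.nm z' + 5 * C.K)
    (h2' : C.nm (m * C.c t) + n + C.Λ ≤ C.nm z')
    (h3 : R + 10 * C.K ≤ n) (h4 : C.d z u ≤ R) (h4' : C.d z' u ≤ R)
    (h5 : C.nm (m * C.c s) = C.nm (m * C.c t)) : s = t := by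
  have a1 := TUQ_near C hH4 (m * C.c s) z u R n h1 h2 h3 h4
  have a2 := TUQ_near C hH4 (m * C.c t) z' u R n h1' h2' h3 h4'
  have a3 : C.d (m * C.c s) (m * C.c t) ≤ 6 * C.K + 0 + 4 * C.δ :=
    hNEA u (m * C.c s) (m * C.c t) (6 * C.K) 0 a1 a2 (by omega) (by omega)
  rw [C.inv] at a3
  have a4 := C.hδ
  have a5 := C.K_pos
  by_contra hne
  have a6 := C.sep s t hne
  have a7 := C.sep t s (Ne.symm hne)
  have a8 := C.comm (C.c s) (C.c t)
  omega

theorem TUQ (hH4 : H4QStmt C.toQM) (hNEA : NEAStmt C.toQM) (hGLQ : GLQStmt C) : TUQStmt C := by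
  intro w F F' b u R E hRE hF hF' hsnd hz hz' hoffs htake
  have hlen : F.length = F'.length := by
    have h := congrArg List.length hsnd
    rwa [List.length_map, List.length_map] at h
  have hmain : ∀ j, j ≤ F.length → F.drop (F.length - j) = F'.drop (F.length - j) := by
    intro j
    induction j with
    | zero =>
      intro _
      rw [Nat.sub_zero, List.drop_length, hlen, List.drop_length]
    | succ j ih =>
      intro hj
      obtain ⟨i, hi⟩ : ∃ i, i = F.length - (j + 1) := ⟨_, rfl⟩
      have hi1 : F.length - j = i + 1 := by omega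
      have hij : i < F.length := by omega
      have hij' : i < F'.length := by omega
      have ih' := ih (by omega)
      rw [hi1] at ih'
      rw [← hi]
      rw [List.drop_eq_getElem_cons hij, List.drop_eq_getElem_cons hij', ih']
      have e2 : F[i].2 = F'[i].2 := by
        have h := congrArg (fun l : List (List ι) => l[i]?) hsnd
        simp only [List.getElem?_map, List.getElem?_eq_getElem hij,
          List.getElem?_eq_getElem hij', Option.map_some, Option.some.injEq] at h
        exact h
      have e1 : F[i].1 = F'[i].1 := by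
        by_cases hc1 : i < E
        · have h := congrArg (fun l : List ι => l[i]?) htake
          simp only [List.getElem?_take, if_pos hc1, List.getElem?_map,
            List.getElem?_eq_getElem hij, List.getElem?_eq_getElem hij', Option.map_some,
            Option.some.injEq] at h
          exact h
        · have hFd : F.take i ++ (F[i] :: F.drop (i + 1)) = F := by
            rw [← List.drop_eq_getElem_cons hij, List.take_append_drop]
          have hFd' : F'.take i ++ (F'[i] :: F'.drop (i + 1)) = F' := by
            rw [← List.drop_eq_getElem_cons hij', List.take_append_drop]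
          have g1 := hGLQ w (F.take i) (F.drop (i + 1)) F[i] b (by rw [hFd]; exact hF)
          have g2 := hGLQ w (F'.take i) (F'.drop (i + 1)) F'[i] b (by rw [hFd']; exact hF')
          rw [hFd, List.length_take, Nat.min_eq_left hij.le, ih'] at g1
          rw [hFd', List.length_take, Nat.min_eq_left hij'.le] at g2
          obtain ⟨p1, -, -, p4⟩ := g1
          obtain ⟨q1, -, -, q4⟩ := g2
          have ho := congrArg (fun l : List ℕ => l.drop i) hoffs
          simp only [TUQ_offs, List.drop_eq_getElem_cons hij, List.drop_eq_getElem_cons hij',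
            ih', offs, List.cons.injEq] at ho
          have ho1 := ho.1
          have l1 := TUQ_low C (W C w (GWT.full (F'.drop (i + 1)) b)) F[i].1
          have l2 := TUQ_low C (W C w (GWT.full (F'.drop (i + 1)) b)) F'[i].1
          exact TUQ_eq C hH4 hNEA (W C w (GWT.full (F'.drop (i + 1)) b))
            (W C w (GWT.full F b)) (W C w (GWT.full F' b)) u F[i].1 F'[i].1 R i p1 p4 q1 q4
            (by omega) hz hz' (by omega)
      rw [Prod.ext e1 e2]
  have h := hmain F.length le_rfl
  rwa [Nat.sub_self, List.drop_zero, List.drop_zero] at h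

end TUQsec

end GWQ
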